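import Pool.Agent.helper14.Fort.Final

/-!
The inequalities `M(G) ≥ ft(G)` and `M(G) ≥ Z*(G)` both fail, with unbounded gap.
-/

namespace Pool.Agent.Results.MP_7a0e32_co.FortNullityGap

open Pool.Agent.helper14.Fort

/-- For every `N` there is a finite simple graph `G` with nonempty vertex set such that
`M(G) + N < ft(G)` and `M(G) + N < Z*(G)`. -/
theorem result (N : ℕ) :
    ∃ (V : Type) (_ : Fintype V) (_ : Nonempty V) (G : SimpleGraph V),
      maxNullity G + N < fortNumber G ∧ (maxNullity G : ℝ) + N < fracZeroForcing G :=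
  ⟨BV (N + 7) (N + 7 + N + 1), inferInstance, ⟨Sum.inl ⟨0, by omega⟩⟩,
    bigGraph (N + 7) (N + 7 + N + 1), main N⟩

end Pool.Agent.Results.MP_7a0e32_co.FortNullityGap
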